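import Pool.Agent.Helper13.RP.Newton

/-!
# Contact with the superstable curve
-/

set_option autoImplicit false

namespace Pool.Agent.Helper13.RP

open MvPolynomial Filter Topology Pool.Agent.Helper65.RP

section core
variable {L Ω : Type} [Field L] [NormedField Ω] [Algebra L Ω] {N : ℕ}
  {𝒰 : Ultrafilter ℕ} {e : ℕ}

theorem inv_top {s : ℕ → ℝ} {T : ℕ → Ω} (hs : Tendsto s (𝒰 : Filter ℕ) atTop)
    (hT : HasOrd 𝒰 s T (-1)) : GeOrd 𝒰 s (fun n => (T n)⁻¹) 1 := by
  intro ε hε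
  have h1 := hT.2.eventually (gt_mem_nhds (show (-1 : ℝ) < -1 + ε by linarith))
  filter_upwards [h1, hT.1, hs.eventually_gt_atTop 0] with n h2 h3 h4
  rw [div_lt_iff₀ h4] at h2
  have h5 : 0 < ‖T n‖ := norm_pos_iff.mpr h3
  rw [norm_inv, ← Real.exp_log (inv_pos.mpr h5), Real.log_inv]
  refine Real.exp_le_exp.mpr ?_
  linarith

theorem core (he : 2 ≤ e) {F : Fin N → MvPolynomial (Fin N) L}
    (hF : ∀ i, (F i).totalDegree ≤ e) {q : Fin N → L} {i₀ : Fin N} (hq0 : q i₀ = 1)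
    {s : ℕ → ℕ → ℝ} {x : ℕ → ℕ → Fin N → Ω}
    (hs : ∀ m, ∀ᶠ n in (𝒰 : Filter ℕ), s m n = e * s (m + 1) n)
    (hx : ∀ m, ∀ᶠ n in (𝒰 : Filter ℕ), ∀ i, x m n i = aeval (x (m + 1) n) (F i))
    (hst : ∀ m, Tendsto (s m) (𝒰 : Filter ℕ) atTop)
    (htop : ∀ m, HasOrd 𝒰 (s m) (fun n => x m n i₀) (-1))
    (hcen : ∃ κ, 0 < κ ∧ ∀ i, GeOrd 𝒰 (s 0)
      (fun n => x 0 n i / x 0 n i₀ - algebraMap L Ω (q i)) κ)
    (hcen' : ∀ m, ∃ κ, 0 < κ ∧ ∀ i, GeOrd 𝒰 (s m)
      (fun n => x m n i / x m n i₀ - algebraMap L Ω (q i)) κ) {c : L} (hc : c ≠ 0)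
    (hfix : ∀ i, eval q (homogeneousComponent e (F i)) = c * q i)
    (hdet : (jac e F q).det ≠ 0) (M : ℕ) :
    ∃ (γ : Fin N → Polynomial L) (m₀ : ℕ), ∀ m, m₀ ≤ m → ∀ i, GeOrd 𝒰 (s m)
      (fun n => x m n i / x m n i₀ - Polynomial.aeval (x m n i₀)⁻¹ (γ i)) M := by
  have her : (2 : ℝ) ≤ e := by exact_mod_cast he
  have hepos : (0 : ℝ) < e := by linarith
  set t : ℕ → ℕ → Ω := fun m n => (x m n i₀)⁻¹ with ht
  set y : ℕ → Fin N → ℕ → Ω := fun m i n => x m n i / x m n i₀ with hy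
  have ht1 : ∀ m, GeOrd 𝒰 (s m) (t m) 1 := fun m => inv_top (hst m) (htop m)
  have htr : ∀ m, Trans 𝒰 e F i₀ (t (m + 1)) (t m) (y (m + 1)) (y m) := fun m =>
    trans_of hF (hx m) (htop (m + 1)).1 (htop m).1
  obtain ⟨κ₀, hκ₀, hc0⟩ := hcen
  have hbase : ∀ m i, GeOrd 𝒰 (s m) (y m i - algebraMap L (ℕ → Ω) (q i))
      (min 1 ((e : ℝ) ^ m * κ₀)) := by
    intro m
    induction m with
    | zero =>
        intro i
        refine GeOrd.mono (hst 0) (hc0 i) ?_
        rw [pow_zero, one_mul]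
        exact min_le_right _ _
    | succ m ih =>
        intro i
        obtain ⟨κ, hκ, hc1⟩ := hcen' (m + 1)
        have h1 : 0 < (e : ℝ) * min 1 ((e : ℝ) ^ m * κ₀) := by positivity
        have h2 := base (hst (m + 1)) (ht1 (m + 1)) (htr m) hq0 hfix hdet h1 hκ
          (fun i => hc1 i) (fun i => GeOrd.scale hepos (hs m) (ih i)) i
        refine GeOrd.mono (hst (m + 1)) h2 (le_min (min_le_left _ _) ?_)
        rw [mul_min_of_nonneg _ _ hepos.le]
        refine le_min ((min_le_left _ _).trans (by linarith)) ((min_le_right _ _).trans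
          (le_of_eq ?_))
        rw [pow_succ]
        ring
  obtain ⟨m₁, hm₁⟩ := pow_unbounded_of_one_lt (1 / κ₀) (by linarith : (1 : ℝ) < e)
  have hone : ∀ m, m₁ ≤ m → ∀ i, GeOrd 𝒰 (s m) (y m i - algebraMap L (ℕ → Ω) (q i)) 1 := by
    intro m hm i
    refine GeOrd.mono (hst m) (hbase m i) (le_min (le_refl _) ?_)
    have h1 : (e : ℝ) ^ m₁ ≤ (e : ℝ) ^ m := pow_le_pow_right₀ (by linarith) hm
    rw [div_lt_iff₀ hκ₀] at hm₁
    nlinarith
  have main : ∀ M : ℕ, ∃ (γ : Fin N → Polynomial L) (m₀ : ℕ), γ i₀ = 1 ∧ m₁ ≤ m₀ ∧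
      ∀ m, m₀ ≤ m → ∀ i, GeOrd 𝒰 (s m) (y m i - Polynomial.aeval (t m) (γ i))
        ((M + 1 : ℕ) : ℝ) := by
    intro M
    induction M with
    | zero =>
        refine ⟨fun i => Polynomial.C (q i), m₁, by simp only [hq0, map_one], le_refl _, ?_⟩
        intro m hm i
        rw [Polynomial.aeval_C, zero_add, Nat.cast_one]
        exact hone m hm i
    | succ M ih =>
        obtain ⟨γ, m₀, hγ, hm, hγM⟩ := ih
        refine ⟨nextP e F q i₀ c (M + 1) γ, m₀ + 1, nextP_zero hq0 hγ, by omega, ?_⟩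
        intro m' hm' i
        obtain ⟨m, rfl⟩ : ∃ m, m' = m + 1 := ⟨m' - 1, by omega⟩
        have h1 : m₀ ≤ m := by omega
        have hMr : (1 : ℝ) ≤ ((M + 1 : ℕ) : ℝ) := by push_cast; linarith [(Nat.cast_nonneg M : (0 : ℝ) ≤ M)]
        have h2 := newton (hst (m + 1)) (ht1 (m + 1)) (by omega : 1 ≤ e) (htr m) hq0 hc hfix hdet
          (by omega : 1 ≤ M + 1) hγ
          (GeOrd.mono (hst (m + 1)) (GeOrd.scale hepos (hs m) (ht1 m)) (by linarith))
          (hone (m + 1) (by omega)) (hγM (m + 1) (by omega))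
          (fun i => GeOrd.mono (hst (m + 1)) (GeOrd.scale hepos (hs m) (hone m (by omega) i))
            (by linarith))
          (fun i => GeOrd.mono (hst (m + 1)) (GeOrd.scale hepos (hs m) (hγM m h1 i))
            (by nlinarith)) i
        have h3 : (((M + 1 + 1 : ℕ) : ℕ) : ℝ) = ((M + 1 : ℕ) : ℝ) + 1 := by push_cast; ring
        rw [h3]
        exact h2
  have hpt : ∀ m (p : Polynomial L) n, Polynomial.aeval (t m) p n =
      Polynomial.aeval (x m n i₀)⁻¹ p := by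
    intro m p n
    exact (Polynomial.aeval_algHom_apply (Pi.evalAlgHom L (fun _ : ℕ => Ω) n) (t m) p).symm
  obtain ⟨γ, m₀, -, -, h⟩ := main M
  refine ⟨γ, m₀, fun m hm i => ?_⟩
  refine GeOrd.congr (GeOrd.mono (hst m) (h m hm i) ?_) (Eventually.of_forall fun n => ?_)
  · push_cast
    linarith
  · rw [Pi.sub_apply, hpt]

end core

section D
variable {K Kb Ω : Type} [Field K] [Field Kb] [Algebra K Kb] [IsAlgClosure K Kb]
  [NormedField Ω] [IsAlgClosed Ω] [Algebra K Ω] [Algebra Kb Ω] [IsScalarTower K Kb Ω] {N : ℕ}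
  {𝒰 : Ultrafilter ℕ} {s : ℕ → ℝ} {z : ℕ → Fin N → K} {i₀ : Fin N}

omit [IsAlgClosure K Kb] [IsAlgClosed Ω] in
theorem center_ge (hlev : Lev Ω 𝒰 s z i₀) {q : Fin N → Kb} (hcen : IsCenter Ω 𝒰 s z i₀ q) :
    ∃ κ, 0 < κ ∧ ∀ i, GeOrd 𝒰 s (fun n => algebraMap K Ω (z n i) / algebraMap K Ω (z n i₀) -
      algebraMap Kb Ω (q i)) κ := by
  have h1 : ∀ i, ∃ κ, 0 < κ ∧ GeOrd 𝒰 s (fun n => algebraMap K Ω (z n i) /
      algebraMap K Ω (z n i₀) - algebraMap Kb Ω (q i)) κ := by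
    intro i
    have hev : ∀ n, ev Ω z (X i - C (q i) * X i₀) n =
        algebraMap K Ω (z n i) - algebraMap Kb Ω (q i) * algebraMap K Ω (z n i₀) := by
      intro n
      rw [ev, map_sub, map_mul, eval_X, eval_C, eval_X, map_sub, map_mul,
        ← IsScalarTower.algebraMap_apply K Kb Ω, ← IsScalarTower.algebraMap_apply K Kb Ω]
    have hinv := inv_top hlev.hs hlev.top
    rcases hcen.2 i with h | ⟨β, hβ, h⟩
    · refine ⟨1, one_pos, GeOrd.of_zero ?_⟩
      filter_upwards [h, hlev.top.1] with n h2 h3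
      rw [hev, sub_eq_zero] at h2
      rw [h2, mul_div_cancel_right₀ _ h3, sub_self]
    · refine ⟨1 + β, by linarith, ?_⟩
      have h4 : GeOrd 𝒰 s (ev Ω z (X i - C (q i) * X i₀)) β := by
        intro ε hε
        have h5 := h.2.eventually (lt_mem_nhds (show β - ε < β by linarith))
        filter_upwards [h5, h.1, hlev.hs.eventually_gt_atTop 0] with n h6 h7 h8
        rw [lt_div_iff₀ h8] at h6
        have h9 : 0 < ‖ev Ω z (X i - C (q i) * X i₀) n‖ := norm_pos_iff.mpr h7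
        rw [← Real.exp_log h9]
        refine Real.exp_le_exp.mpr ?_
        linarith
      refine GeOrd.congr (GeOrd.mul hinv h4) ?_
      filter_upwards [hlev.top.1] with n h10
      rw [Pi.mul_apply, hev]
      field_simp
  choose κ hκ h2 using h1
  have hne : (Finset.univ : Finset (Fin N)).Nonempty := ⟨i₀, Finset.mem_univ _⟩
  obtain ⟨j, -, hj⟩ := Finset.exists_min_image Finset.univ κ hne
  exact ⟨κ j, hκ j, fun i => GeOrd.mono hlev.hs (h2 i) (hj i (Finset.mem_univ i))⟩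

/-- H -/
theorem approx {e : ℕ} (he : 2 ≤ e) {F : Fin N → MvPolynomial (Fin N) K} (hF : Regular Kb e F)
    {q : Fin N → Kb} {s : ℕ → ℕ → ℝ} {z : ℕ → ℕ → Fin N → K}
    (hs : ∀ m, ∀ᶠ n in (𝒰 : Filter ℕ), s m n = e * s (m + 1) n)
    (hz : ∀ m, ∀ᶠ n in (𝒰 : Filter ℕ), ∀ i, z m n i = eval (z (m + 1) n) (F i))
    (hlev : ∀ m, Lev Ω 𝒰 (s m) (z m) i₀) (hcen : ∀ m, IsCenter Ω 𝒰 (s m) (z m) i₀ q)
    {c : Kb} (hc : c ≠ 0) (hfix : ∀ i, aeval q (homogeneousComponent e (F i)) = c * q i)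
    (hdet : (Matrix.of fun i l => aeval q (pderiv l (homogeneousComponent e (F i))) :
      Matrix (Fin N) (Fin N) Kb).det ≠ 0) (M : ℕ) :
    ∃ (γ : Fin N → Polynomial Kb) (m₀ : ℕ),
      (∀ i j, (γ i).coeff j ∈ IntermediateField.adjoin K (Set.range q)) ∧
      ∀ m, m₀ ≤ m → ∀ i, GeOrd 𝒰 (s m) (fun n => algebraMap K Ω (z m n i) /
        algebraMap K Ω (z m n i₀) -
          algebraMap Kb Ω ((γ i).eval (algebraMap K Kb (z m n i₀))⁻¹)) M := by
  set L : IntermediateField K Kb := IntermediateField.adjoin K (Set.range q) with hL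
  have hmem : ∀ i, q i ∈ L := fun i =>
    IntermediateField.subset_adjoin K _ (Set.mem_range_self i)
  set qL : Fin N → L := fun i => ⟨q i, hmem i⟩ with hqL
  have hmapL : ∀ a : L, algebraMap L Ω a = algebraMap Kb Ω (algebraMap L Kb a) := fun a => rfl
  have hKLO : IsScalarTower K L Ω := IsScalarTower.of_algebraMap_eq fun a => by
    rw [hmapL, ← IsScalarTower.algebraMap_apply K L Kb, ← IsScalarTower.algebraMap_apply K Kb Ω]
  set FL : Fin N → MvPolynomial (Fin N) L := fun i => map (algebraMap K L) (F i) with hFL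
  have hcomp : ∀ k i, homogeneousComponent k (FL i) =
      map (algebraMap K L) (homogeneousComponent k (F i)) := by
    intro k i
    rw [hFL]
    ext d
    rw [coeff_homogeneousComponent, coeff_map, coeff_map, coeff_homogeneousComponent]
    split_ifs <;> simp
  have hev : ∀ P : MvPolynomial (Fin N) K,
      algebraMap L Kb (eval qL (map (algebraMap K L) P)) = aeval q P := by
    intro P
    rw [eval_map, aeval_def, ← MvPolynomial.coe_eval₂Hom, ← MvPolynomial.coe_eval₂Hom]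
    rw [← RingHom.comp_apply, MvPolynomial.comp_eval₂Hom]
    rfl
  have hq0 : qL i₀ = 1 := Subtype.ext (hcen 0).1
  set cL : L := eval qL (homogeneousComponent e (FL i₀)) with hcL
  have hcLc : algebraMap L Kb cL = c := by
    rw [hcL, hcomp, hev, hfix, (hcen 0).1, mul_one]
  have hinj : Function.Injective (algebraMap L Kb) := (algebraMap L Kb).injective
  have hfixL : ∀ i, eval qL (homogeneousComponent e (FL i)) = cL * qL i := by
    intro i
    apply hinj
    rw [map_mul, hcLc, hcomp, hev, hfix]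
    rfl
  have hcL0 : cL ≠ 0 := by
    intro h
    rw [h, map_zero] at hcLc
    exact hc hcLc.symm
  have hdetL : (jac e FL qL).det ≠ 0 := by
    intro h
    apply hdet
    have h1 : (Matrix.of fun i l => aeval q (pderiv l (homogeneousComponent e (F i))) :
      Matrix (Fin N) (Fin N) Kb) = (algebraMap L Kb).mapMatrix (jac e FL qL) := by
      ext i l
      rw [RingHom.mapMatrix_apply, Matrix.map_apply, jac, Matrix.of_apply, Matrix.of_apply, hcomp,
        pderiv_map, hev]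
    rw [h1, ← RingHom.map_det, h, map_zero]
  have hev' : ∀ m, ∃ κ, 0 < κ ∧ ∀ i, GeOrd 𝒰 (s m)
      (fun n => algebraMap K Ω (z m n i) / algebraMap K Ω (z m n i₀) - algebraMap L Ω (qL i)) κ :=
    fun m => center_ge (Kb := Kb) (q := q) (hlev m) (hcen m)
  obtain ⟨γ, m₀, h⟩ := core (L := L) (Ω := Ω) (𝒰 := 𝒰) (F := FL) (q := qL) (i₀ := i₀) (s := s)
    (x := fun m n i => algebraMap K Ω (z m n i)) he
    (fun i => (Finset.sup_mono (support_map_subset _ _)).trans (hF.1 i)) hq0 hs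
    (fun m => by
      filter_upwards [hz m] with n h1 i
      rw [h1 i, hFL, aeval_map_algebraMap]
      exact (aeval_algebraMap_apply Ω (z (m + 1) n) (F i)).symm)
    (fun m => (hlev m).hs) (fun m => (hlev m).top) (hev' 0) hev' hcL0 hfixL hdetL M
  refine ⟨fun i => (γ i).map (algebraMap L Kb), m₀, fun i j => ?_, fun m hm i => ?_⟩
  · rw [Polynomial.coeff_map]
    exact ((γ i).coeff j).2
  · refine GeOrd.congr (h m hm i) (Eventually.of_forall fun n => ?_)
    congr 1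
    rw [Polynomial.eval_map, Polynomial.hom_eval₂, map_inv₀,
      ← IsScalarTower.algebraMap_apply K Kb Ω, Polynomial.aeval_def]
    rfl

end D

end Pool.Agent.Helper13.RP
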