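import Pool.Agent.Helper13.RP.Step

/-!
# The Newton step
-/

set_option autoImplicit false

namespace Pool.Agent.Helper13.RP

open MvPolynomial Filter Topology Pool.Agent.Helper65.RP

variable {L Ω : Type} [Field L] [NormedField Ω] [Algebra L Ω] {N : ℕ}
  {𝒰 : Ultrafilter ℕ} {s : ℕ → ℝ} {α β δ : ℝ} {e : ℕ}

theorem paeval_ge (hs : Tendsto s (𝒰 : Filter ℕ) atTop) {t : ℕ → Ω} (ht : GeOrd 𝒰 s t 0)
    (p : Polynomial L) : GeOrd 𝒰 s (Polynomial.aeval t p) 0 := by
  induction p using Polynomial.induction_on with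
  | C a => rw [Polynomial.aeval_C]; exact GeOrd.algMap hs a
  | add p q hp hq => rw [map_add]; exact GeOrd.add hs hp hq
  | monomial n a h =>
      rw [pow_succ, ← mul_assoc, map_mul, Polynomial.aeval_X]
      exact GeOrd.mul_left h ht

theorem paeval_lip (hs : Tendsto s (𝒰 : Filter ℕ) atTop) {t u : ℕ → Ω} (ht : GeOrd 𝒰 s t 0)
    (hu : GeOrd 𝒰 s u 0) (h : GeOrd 𝒰 s (t - u) α) (p : Polynomial L) :
    GeOrd 𝒰 s (Polynomial.aeval t p - Polynomial.aeval u p) α := by
  induction p using Polynomial.induction_on with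
  | C a => rw [Polynomial.aeval_C, Polynomial.aeval_C, sub_self]; exact GeOrd.zero
  | add p q hp hq => rw [map_add, map_add, add_sub_add_comm]; exact GeOrd.add hs hp hq
  | monomial n a ih =>
      rw [pow_succ, ← mul_assoc, map_mul (Polynomial.aeval t) _ Polynomial.X, Polynomial.aeval_X,
        map_mul (Polynomial.aeval u) _ Polynomial.X, Polynomial.aeval_X]
      have : Polynomial.aeval t (Polynomial.C a * Polynomial.X ^ n) * t -
          Polynomial.aeval u (Polynomial.C a * Polynomial.X ^ n) * u =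
          (Polynomial.aeval t (Polynomial.C a * Polynomial.X ^ n) -
            Polynomial.aeval u (Polynomial.C a * Polynomial.X ^ n)) * u +
          Polynomial.aeval t (Polynomial.C a * Polynomial.X ^ n) * (t - u) := by ring
      rw [this]
      exact GeOrd.add hs (GeOrd.mul_right ih hu) (GeOrd.mul_left (paeval_ge hs ht _) h)

section defs
variable (e : ℕ) (F : Fin N → MvPolynomial (Fin N) L) (q : Fin N → L) (i₀ : Fin N) (c : L) (M : ℕ)
  (γ : Fin N → Polynomial L)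

/-- The homogenised polynomial along a polynomial curve. -/
noncomputable def PhiP (P : MvPolynomial (Fin N) L) : Polynomial L :=
  ∑ k ∈ Finset.range (e + 1), Polynomial.X ^ (e - k) * aeval γ (homogeneousComponent k P)

/-- Truncated inverse. -/
noncomputable def rhoP : Polynomial L :=
  Polynomial.C c⁻¹ * ∑ j ∈ Finset.range M, (1 - Polynomial.C c⁻¹ * PhiP e γ (F i₀)) ^ j

/-- The approximation of the next level. -/
noncomputable def WP (l : Fin N) : Polynomial L :=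
  (γ l).comp (Polynomial.X ^ e * rhoP e F i₀ c M γ)

/-- The error. -/
noncomputable def EP (l : Fin N) : Polynomial L :=
  PhiP e γ (F i₀) * WP e F i₀ c M γ l - PhiP e γ (F l)

/-- The next approximation. -/
noncomputable def nextP (l : Fin N) : Polynomial L :=
  γ l + (∑ k, (jac e F q)⁻¹ l k • EP e F i₀ c M γ k -
    q l • ∑ k, (jac e F q)⁻¹ i₀ k • EP e F i₀ c M γ k)

end defs

section newton
variable {F : Fin N → MvPolynomial (Fin N) L} {q : Fin N → L} {i₀ : Fin N} {c : L} {M : ℕ}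
  {γ : Fin N → Polynomial L} {t t' : ℕ → Ω} {y y' : Fin N → ℕ → Ω}

theorem nextP_zero (hq0 : q i₀ = 1) (hγ : γ i₀ = 1) : nextP e F q i₀ c M γ i₀ = 1 := by
  rw [nextP, hq0, one_smul, sub_self, add_zero, hγ]

theorem aeval_PhiP (P : MvPolynomial (Fin N) L) :
    Polynomial.aeval t (PhiP e γ P) = Phi e t (fun l => Polynomial.aeval t (γ l)) P := by
  rw [PhiP, Phi, map_sum]
  refine Finset.sum_congr rfl fun k _ => ?_
  rw [map_mul, map_pow, Polynomial.aeval_X]
  congr 1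
  exact MvPolynomial.comp_aeval_apply γ (Polynomial.aeval t) _

theorem aeval_WP (l : Fin N) : Polynomial.aeval t (WP e F i₀ c M γ l) =
    Polynomial.aeval (t ^ e * Polynomial.aeval t (rhoP e F i₀ c M γ)) (γ l) := by
  rw [WP, Polynomial.aeval_comp, map_mul, map_pow, Polynomial.aeval_X]

theorem PhiP_mul_rhoP : PhiP e γ (F i₀) * rhoP e F i₀ c M γ =
    1 - (1 - Polynomial.C c⁻¹ * PhiP e γ (F i₀)) ^ M := by
  have h := geom_sum_mul_neg (1 - Polynomial.C c⁻¹ * PhiP e γ (F i₀)) M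
  rw [sub_sub_cancel] at h
  rw [← h, rhoP]
  ring

theorem newton (hs : Tendsto s (𝒰 : Filter ℕ) atTop) (ht : GeOrd 𝒰 s t 1) (he : 1 ≤ e)
    (htr : Trans 𝒰 e F i₀ t t' y y') (hq0 : q i₀ = 1) (hc : c ≠ 0)
    (hfix : ∀ i, eval q (homogeneousComponent e (F i)) = c * q i)
    (hdet : (jac e F q).det ≠ 0) (hM : 1 ≤ M) (hγ : γ i₀ = 1) (ht' : GeOrd 𝒰 s t' 0)
    (hyq : ∀ i, GeOrd 𝒰 s (y i - algebraMap L (ℕ → Ω) (q i)) 1)
    (hyM : ∀ i, GeOrd 𝒰 s (y i - Polynomial.aeval t (γ i)) M)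
    (hyq' : ∀ i, GeOrd 𝒰 s (y' i - algebraMap L (ℕ → Ω) (q i)) 1)
    (hyM' : ∀ i, GeOrd 𝒰 s (y' i - Polynomial.aeval t' (γ i)) (M + 1)) (i : Fin N) :
    GeOrd 𝒰 s (y i - Polynomial.aeval t (nextP e F q i₀ c M γ i)) (M + 1) := by
  have hMr : (1 : ℝ) ≤ M := by exact_mod_cast hM
  have ht0 : GeOrd 𝒰 s t 0 := GeOrd.mono hs ht (by norm_num)
  have hyb : ∀ i, GeOrd 𝒰 s (y i) 0 := bdd_of hs (by norm_num) hyq
  have hyb' : ∀ i, GeOrd 𝒰 s (y' i) 0 := bdd_of hs (by norm_num) hyq'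
  set u : Fin N → ℕ → Ω := fun i => Polynomial.aeval t (γ i) with hu
  have hub : ∀ i, GeOrd 𝒰 s (u i) 0 := fun i => paeval_ge hs ht0 (γ i)
  have huq : ∀ i, GeOrd 𝒰 s (u i - algebraMap L (ℕ → Ω) (q i)) 1 := by
    intro i
    have := GeOrd.sub hs (hyq i) (GeOrd.mono hs (hyM i) hMr)
    rwa [sub_sub_sub_cancel_left] at this
  set lam : ℕ → Ω := Phi e t y (F i₀) with hlam
  set Lam : ℕ → Ω := Phi e t u (F i₀) with hLam
  have hLam' : Polynomial.aeval t (PhiP e γ (F i₀)) = Lam := aeval_PhiP (F i₀)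
  have hlb : GeOrd 𝒰 s lam 0 := Phi_ge hs ht hyb (F i₀)
  have hll : GeOrd 𝒰 s (lam - Lam) M := Phi_lip hs ht hyb hub hyM (F i₀)
  have hq' : ∀ i, GeOrd 𝒰 s (algebraMap L (ℕ → Ω) (q i)) 0 := fun i => GeOrd.algMap hs (q i)
  -- `Lam` is close to `c`
  have hLc : GeOrd 𝒰 s (Lam - algebraMap L (ℕ → Ω) c) 1 := by
    have h1 := Phi_lip (e := e) hs ht hub hq' huq (F i₀)
    have h2 := Phi_zero (e := e) hs ht hq' (F i₀)
    rw [aeval_const, hfix, hq0, mul_one] at h2
    have h3 := GeOrd.add hs h1 h2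
    rwa [sub_add_sub_cancel] at h3
  have hlc : GeOrd 𝒰 s (lam - algebraMap L (ℕ → Ω) c) 1 := by
    have h3 := GeOrd.add hs (GeOrd.mono hs hll hMr) hLc
    rwa [sub_add_sub_cancel] at h3
  obtain ⟨hinv, hne⟩ := GeOrd.inv (a := algebraMap L Ω c) hs
    ((map_ne_zero (algebraMap L Ω)).mpr hc) one_pos hlc
  set r : ℕ → Ω := Polynomial.aeval t (rhoP e F i₀ c M γ) with hr
  have hrb : GeOrd 𝒰 s r 0 := paeval_ge hs ht0 _
  have hx : GeOrd 𝒰 s (Polynomial.aeval t (1 - Polynomial.C c⁻¹ * PhiP e γ (F i₀))) 1 := by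
    have h1 : Polynomial.aeval t (1 - Polynomial.C c⁻¹ * PhiP e γ (F i₀)) =
        (-c⁻¹) • (Lam - algebraMap L (ℕ → Ω) c) := by
      rw [map_sub, map_one, map_mul, Polynomial.aeval_C, hLam', Algebra.smul_def, map_neg]
      have : algebraMap L (ℕ → Ω) c⁻¹ * algebraMap L (ℕ → Ω) c = 1 := by
        rw [← map_mul, inv_mul_cancel₀ hc, map_one]
      rw [mul_sub, neg_mul, neg_mul, this]
      ring
    rw [h1]
    exact GeOrd.smul hs _ hLc
  have hLr : GeOrd 𝒰 s (1 - Lam * r) M := by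
    have h1 : 1 - Lam * r = (Polynomial.aeval t (1 - Polynomial.C c⁻¹ * PhiP e γ (F i₀))) ^ M := by
      rw [← hLam', hr, ← map_mul, PhiP_mul_rhoP, map_sub, map_one, map_pow]
      ring
    rw [h1]
    have := GeOrd.pow hs hx M
    rwa [mul_one] at this
  have hlr : GeOrd 𝒰 s (1 - lam * r) M := by
    have h1 : 1 - lam * r = (1 - Lam * r) - (lam - Lam) * r := by ring
    rw [h1]
    exact GeOrd.sub hs hLr (GeOrd.mul_right hll hrb)
  have hte : GeOrd 𝒰 s (t ^ e) 1 := pow_ge_one hs ht he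
  have htt : GeOrd 𝒰 s (t' - t ^ e * r) (M + 1) := by
    have h1 : GeOrd 𝒰 s (t ^ e * (lam⁻¹ * (1 - lam * r))) (M + 1) := by
      rw [add_comm (M : ℝ)]
      exact GeOrd.mul hte (GeOrd.mul_left hinv hlr)
    refine GeOrd.congr h1 ?_
    filter_upwards [htr.inv, hne] with n h2 h3
    have h4 : t' n = t n ^ e * (lam n)⁻¹ := by
      rw [← h2]
      field_simp
      rfl
    rw [Pi.sub_apply, Pi.mul_apply, Pi.mul_apply, Pi.mul_apply, Pi.inv_apply, Pi.sub_apply,
      Pi.mul_apply, Pi.pow_apply, Pi.one_apply, h4]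
    field_simp
  have hW : ∀ l, GeOrd 𝒰 s (y' l - Polynomial.aeval t (WP e F i₀ c M γ l)) (M + 1) := by
    intro l
    have h1 := paeval_lip hs ht' (GeOrd.mul_right (GeOrd.mono hs hte (by norm_num)) hrb) htt (γ l)
    have h2 := GeOrd.add hs (hyM' l) h1
    rw [sub_add_sub_cancel] at h2
    rw [aeval_WP]
    exact h2
  have hWq : ∀ l, GeOrd 𝒰 s (Polynomial.aeval t (WP e F i₀ c M γ l) -
      algebraMap L (ℕ → Ω) (q l)) 1 := by
    intro l
    have := GeOrd.sub hs (hyq' l) (GeOrd.mono hs (hW l) (by linarith : (1 : ℝ) ≤ M + 1))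
    rwa [sub_sub_sub_cancel_left] at this
  have hlin : ∀ i, GeOrd 𝒰 s (Phi e t y (F i) - Phi e t u (F i) -
      ∑ l, jac e F q i l • (y l - u l)) (M + 1) := fun i =>
    Phi_lin (β := 1) hs ht hyb hub hyM huq (by linarith) (by linarith) (by linarith) (F i)
  have hmain : ∀ i, GeOrd 𝒰 s (∑ l, jac e F q i l • (y l - u l) -
      q i • (∑ l, jac e F q i₀ l • (y l - u l)) -
        Polynomial.aeval t (EP e F i₀ c M γ i)) (M + 1) := by
    intro i
    have h1 : GeOrd 𝒰 s (lam * (y' i - Polynomial.aeval t (WP e F i₀ c M γ i)) +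
        (lam - Lam) * (Polynomial.aeval t (WP e F i₀ c M γ i) - algebraMap L (ℕ → Ω) (q i)))
          (M + 1) :=
      GeOrd.add hs (GeOrd.mul_left hlb (hW i)) (GeOrd.mul hll (hWq i))
    have h2 : GeOrd 𝒰 s (Phi e t y (F i) - Lam * Polynomial.aeval t (WP e F i₀ c M γ i) -
        q i • (lam - Lam)) (M + 1) := by
      refine GeOrd.congr h1 ?_
      filter_upwards [htr.eq i] with n h3
      simp only [Pi.add_apply, Pi.sub_apply, Pi.mul_apply, Algebra.smul_def,
        Pi.algebraMap_apply, h3]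
      ring
    have h4 := GeOrd.add hs h2 (GeOrd.sub hs (GeOrd.smul hs (q i) (hlin i₀)) (hlin i))
    refine GeOrd.congr h4 (Eventually.of_forall fun n => congrFun ?_ n)
    rw [EP, map_sub, map_mul, hLam', aeval_PhiP]
    simp only [Algebra.smul_def]
    ring
  have hv : GeOrd 𝒰 s (y i₀ - u i₀) (M + 1) := by
    refine GeOrd.of_zero ?_
    filter_upwards [htr.top] with n h4
    rw [Pi.sub_apply, h4, hu]
    simp only [hγ, map_one, Pi.one_apply, sub_self]
  have hfin := solve (v := fun l => y l - u l)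
    (w := fun l => Polynomial.aeval t (EP e F i₀ c M γ l)) hs hdet hq0 (jac_q hfix) hv hmain i
  refine GeOrd.congr hfin (Eventually.of_forall fun n => congrFun ?_ n)
  rw [nextP, map_add, map_sub, map_smul, map_sum, map_sum]
  simp only [map_smul]
  ring

end newton

end Pool.Agent.Helper13.RP
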