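import Pool.Agent.Helper65.RP.Defs

/-!
# Calculus of orders along an ultrafilter
-/

set_option autoImplicit false

namespace Pool.Agent.Helper13.RP

open MvPolynomial Filter Topology Pool.Agent.Helper65.RP

variable {L Ω : Type} [Field L] [NormedField Ω] [Algebra L Ω] {N : ℕ}
  {𝒰 : Ultrafilter ℕ} {s : ℕ → ℝ} {u v : ℕ → Ω} {α β : ℝ}

theorem GeOrd.congr (h : GeOrd 𝒰 s u α) (huv : ∀ᶠ n in (𝒰 : Filter ℕ), u n = v n) :
    GeOrd 𝒰 s v α := by
  intro ε hε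
  filter_upwards [h ε hε, huv] with n h1 h2
  rwa [← h2]

theorem GeOrd.of_zero (hu : ∀ᶠ n in (𝒰 : Filter ℕ), u n = 0) : GeOrd 𝒰 s u α := by
  intro ε _
  filter_upwards [hu] with n h1
  rw [h1, norm_zero]
  exact (Real.exp_pos _).le

theorem GeOrd.zero : GeOrd 𝒰 s (0 : ℕ → Ω) α :=
  GeOrd.of_zero (Eventually.of_forall fun _ => rfl)

theorem GeOrd.neg (h : GeOrd 𝒰 s u α) : GeOrd 𝒰 s (-u) α := by
  intro ε hε
  filter_upwards [h ε hε] with n h1
  rwa [Pi.neg_apply, norm_neg]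

theorem GeOrd.mul (h : GeOrd 𝒰 s u α) (h' : GeOrd 𝒰 s v β) : GeOrd 𝒰 s (u * v) (α + β) := by
  intro ε hε
  filter_upwards [h (ε / 2) (by positivity), h' (ε / 2) (by positivity)] with n h1 h2
  rw [Pi.mul_apply, norm_mul]
  refine (mul_le_mul h1 h2 (norm_nonneg _) (Real.exp_pos _).le).trans (le_of_eq ?_)
  rw [← Real.exp_add]
  congr 1
  ring

theorem GeOrd.mono (hs : Tendsto s (𝒰 : Filter ℕ) atTop) (h : GeOrd 𝒰 s u α) (hβ : β ≤ α) :
    GeOrd 𝒰 s u β := by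
  intro ε hε
  filter_upwards [h ε hε, hs.eventually_ge_atTop 0] with n h1 h2
  refine h1.trans (Real.exp_le_exp.mpr ?_)
  nlinarith

theorem GeOrd.add (hs : Tendsto s (𝒰 : Filter ℕ) atTop) (h : GeOrd 𝒰 s u α)
    (h' : GeOrd 𝒰 s v α) : GeOrd 𝒰 s (u + v) α := by
  intro ε hε
  filter_upwards [h (ε / 2) (by positivity), h' (ε / 2) (by positivity),
    hs.eventually_ge_atTop (2 / ε)] with n h1 h2 h3
  rw [Pi.add_apply]
  refine (norm_add_le _ _).trans ((add_le_add h1 h2).trans ?_)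
  have h4 : (1 : ℝ) ≤ ε / 2 * s n := by
    have := mul_le_mul_of_nonneg_left h3 (by positivity : (0 : ℝ) ≤ ε / 2)
    refine le_trans (le_of_eq ?_) this
    field_simp
  have h5 : (2 : ℝ) ≤ Real.exp (ε / 2 * s n) := by
    have := Real.add_one_le_exp (ε / 2 * s n)
    linarith
  have h6 : Real.exp (-(α - ε) * s n) = Real.exp (ε / 2 * s n) * Real.exp (-(α - ε / 2) * s n) := by
    rw [← Real.exp_add]
    congr 1
    ring
  rw [h6]
  nlinarith [Real.exp_pos (-(α - ε / 2) * s n)]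

theorem GeOrd.sub (hs : Tendsto s (𝒰 : Filter ℕ) atTop) (h : GeOrd 𝒰 s u α)
    (h' : GeOrd 𝒰 s v α) : GeOrd 𝒰 s (u - v) α := by
  rw [sub_eq_add_neg]
  exact GeOrd.add hs h (GeOrd.neg h')

theorem GeOrd.sum (hs : Tendsto s (𝒰 : Filter ℕ) atTop) {ι : Type} (S : Finset ι)
    (w : ι → ℕ → Ω) (h : ∀ i ∈ S, GeOrd 𝒰 s (w i) α) : GeOrd 𝒰 s (∑ i ∈ S, w i) α := by
  classical
  induction S using Finset.induction_on with
  | empty => simpa using GeOrd.zero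
  | insert a S ha ih =>
      rw [Finset.sum_insert ha]
      exact GeOrd.add hs (h a (Finset.mem_insert_self a S))
        (ih fun i hi => h i (Finset.mem_insert_of_mem hi))

theorem GeOrd.of_bdd (hs : Tendsto s (𝒰 : Filter ℕ) atTop) (C : ℝ)
    (hu : ∀ᶠ n in (𝒰 : Filter ℕ), ‖u n‖ ≤ C) : GeOrd 𝒰 s u 0 := by
  intro ε hε
  filter_upwards [hs.eventually_ge_atTop (C / ε), hu] with n h3 h7
  have h4 : C ≤ ε * s n := by
    have := mul_le_mul_of_nonneg_left h3 hε.le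
    refine le_trans (le_of_eq ?_) this
    field_simp
  have h5 := Real.add_one_le_exp (ε * s n)
  have h6 : -(0 - ε) * s n = ε * s n := by ring
  rw [h6]
  linarith

theorem GeOrd.cst (hs : Tendsto s (𝒰 : Filter ℕ) atTop) (a : Ω) :
    GeOrd 𝒰 s (fun _ => a) 0 :=
  GeOrd.of_bdd hs ‖a‖ (Eventually.of_forall fun _ => le_refl _)

theorem GeOrd.algMap (hs : Tendsto s (𝒰 : Filter ℕ) atTop) (a : L) :
    GeOrd 𝒰 s (algebraMap L (ℕ → Ω) a) 0 :=
  GeOrd.cst hs (algebraMap L Ω a)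

theorem GeOrd.one (hs : Tendsto s (𝒰 : Filter ℕ) atTop) :
    GeOrd 𝒰 s (1 : ℕ → Ω) 0 := GeOrd.cst hs 1

theorem GeOrd.smul (hs : Tendsto s (𝒰 : Filter ℕ) atTop) (a : L) (h : GeOrd 𝒰 s u α) :
    GeOrd 𝒰 s (a • u) α := by
  rw [Algebra.smul_def]
  have := GeOrd.mul (GeOrd.algMap (L := L) (Ω := Ω) hs a) h
  rwa [zero_add] at this

theorem GeOrd.mul_left (h : GeOrd 𝒰 s u 0) (h' : GeOrd 𝒰 s v β) :
    GeOrd 𝒰 s (u * v) β := by
  have := GeOrd.mul h h'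
  rwa [zero_add] at this

theorem GeOrd.mul_right (h : GeOrd 𝒰 s u α) (h' : GeOrd 𝒰 s v 0) :
    GeOrd 𝒰 s (u * v) α := by
  have := GeOrd.mul h h'
  rwa [add_zero] at this

theorem GeOrd.pow (hs : Tendsto s (𝒰 : Filter ℕ) atTop) (h : GeOrd 𝒰 s u α) (k : ℕ) :
    GeOrd 𝒰 s (u ^ k) (k * α) := by
  induction k with
  | zero => simpa using GeOrd.one hs
  | succ k ih =>
      rw [pow_succ]
      have := GeOrd.mul ih h
      have h2 : ((k + 1 : ℕ) : ℝ) * α = k * α + α := by push_cast; ring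
      rwa [h2]

/-- Change of scale. -/
theorem GeOrd.scale {s' : ℕ → ℝ} {e : ℝ} (he : 0 < e)
    (hs' : ∀ᶠ n in (𝒰 : Filter ℕ), s' n = e * s n) (h : GeOrd 𝒰 s' u α) :
    GeOrd 𝒰 s u (e * α) := by
  intro ε hε
  filter_upwards [h (ε / e) (by positivity), hs'] with n h1 h2
  refine h1.trans (le_of_eq ?_)
  rw [h2]
  congr 1
  field_simp

/-- A sequence close to a nonzero constant has bounded inverse. -/
theorem GeOrd.inv (hs : Tendsto s (𝒰 : Filter ℕ) atTop) {a : Ω} (ha : a ≠ 0) (hα : 0 < α)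
    (h : GeOrd 𝒰 s (u - fun _ => a) α) : GeOrd 𝒰 s (u⁻¹) 0 ∧ ∀ᶠ n in (𝒰 : Filter ℕ), u n ≠ 0 := by
  have ha' : 0 < ‖a‖ := norm_pos_iff.mpr ha
  have key : ∀ᶠ n in (𝒰 : Filter ℕ), ‖a‖ / 2 ≤ ‖u n‖ := by
    have h1 : Tendsto (fun n => Real.exp (-(α - α / 2) * s n)) (𝒰 : Filter ℕ) (𝓝 0) := by
      refine Real.tendsto_exp_atBot.comp ?_
      exact hs.const_mul_atTop_of_neg (by linarith)
    filter_upwards [h (α / 2) (by positivity), h1.eventually (gt_mem_nhds (half_pos ha'))]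
      with n h2 h3
    have h4 : ‖u n - a‖ < ‖a‖ / 2 := lt_of_le_of_lt h2 h3
    have h5 : ‖a‖ ≤ ‖u n‖ + ‖u n - a‖ := by
      calc ‖a‖ = ‖u n - (u n - a)‖ := by rw [sub_sub_cancel]
        _ ≤ _ := norm_sub_le _ _
    linarith
  refine ⟨?_, ?_⟩
  · refine GeOrd.of_bdd hs (‖a‖ / 2)⁻¹ ?_
    filter_upwards [key] with n h1
    rw [Pi.inv_apply, norm_inv]
    exact inv_anti₀ (half_pos ha') h1
  · filter_upwards [key] with n h1 h2
    rw [h2, norm_zero] at h1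
    linarith

end Pool.Agent.Helper13.RP
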