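import Pool.Agent.Helper13.RP.Poly

/-!
# The homogenised map
-/

set_option autoImplicit false

namespace Pool.Agent.Helper13.RP

open MvPolynomial Filter Topology Pool.Agent.Helper65.RP

variable {L Ω : Type} [Field L] [NormedField Ω] [Algebra L Ω] {N : ℕ}
  {𝒰 : Ultrafilter ℕ} {s : ℕ → ℝ} {α β δ : ℝ} {y u : Fin N → ℕ → Ω} {t : ℕ → Ω} {e : ℕ}

/-- The value at `(t, y)` of the homogenisation of `P` in degree `e`. -/
noncomputable def Phi (e : ℕ) (t : ℕ → Ω) (y : Fin N → ℕ → Ω) (P : MvPolynomial (Fin N) L) :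
    ℕ → Ω :=
  ∑ k ∈ Finset.range (e + 1), t ^ (e - k) * aeval y (homogeneousComponent k P)

theorem aeval_seq_apply (P : MvPolynomial (Fin N) L) (n : ℕ) :
    aeval y P n = aeval (fun i => y i n) P :=
  MvPolynomial.comp_aeval_apply y (Pi.evalAlgHom L (fun _ : ℕ => Ω) n) P

theorem hom_scale {k : ℕ} {P : MvPolynomial (Fin N) L} (hP : P.IsHomogeneous k) (T : Ω)
    (w : Fin N → Ω) : aeval (fun i => T * w i) P = T ^ k * aeval w P := by
  rw [aeval_def, aeval_def, eval₂_eq', eval₂_eq', Finset.mul_sum]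
  refine Finset.sum_congr rfl fun d hd => ?_
  have h1 : ∏ i, (T * w i) ^ d i = T ^ k * ∏ i, w i ^ d i := by
    simp_rw [mul_pow]
    rw [Finset.prod_mul_distrib, Finset.prod_pow_eq_pow_sum]
    congr 2
    have h2 := hP (mem_support_iff.mp hd)
    rw [Finsupp.weight_apply, Finsupp.sum_fintype] at h2
    · simpa using h2
    · simp
  rw [h1]
  ring

theorem sum_scale {P : MvPolynomial (Fin N) L} (hP : P.totalDegree ≤ e) {T : Ω} (hT : T ≠ 0)
    (w : Fin N → Ω) :
    aeval (fun i => T * w i) P =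
      T ^ e * ∑ k ∈ Finset.range (e + 1), (T⁻¹) ^ (e - k) * aeval w (homogeneousComponent k P) := by
  have h0 : P = ∑ k ∈ Finset.range (e + 1), homogeneousComponent k P := by
    conv_lhs => rw [← sum_homogeneousComponent P]
    refine Finset.sum_subset ?_ ?_
    · intro k hk
      rw [Finset.mem_range] at hk ⊢
      omega
    · intro k _ hk
      rw [Finset.mem_range, not_lt] at hk
      exact homogeneousComponent_eq_zero _ _ (by omega)
  conv_lhs => rw [h0]
  rw [map_sum, Finset.mul_sum]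
  refine Finset.sum_congr rfl fun k hk => ?_
  rw [Finset.mem_range] at hk
  rw [hom_scale (homogeneousComponent_isHomogeneous k P), ← mul_assoc]
  congr 1
  have : e = (e - k) + k := by omega
  conv_rhs => rw [this, pow_add]
  rw [Nat.add_sub_cancel, inv_pow]
  field_simp

theorem Phi_apply (P : MvPolynomial (Fin N) L) (n : ℕ) :
    Phi e t y P n =
      ∑ k ∈ Finset.range (e + 1), t n ^ (e - k) * aeval (fun i => y i n)
        (homogeneousComponent k P) := by
  rw [Phi, Finset.sum_apply]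
  refine Finset.sum_congr rfl fun k _ => ?_
  rw [Pi.mul_apply, Pi.pow_apply, aeval_seq_apply]

theorem pow_ge (hs : Tendsto s (𝒰 : Filter ℕ) atTop) (ht : GeOrd 𝒰 s t 1) (k : ℕ) :
    GeOrd 𝒰 s (t ^ k) 0 :=
  GeOrd.mono hs (GeOrd.pow hs ht k) (by positivity)

theorem pow_ge_one (hs : Tendsto s (𝒰 : Filter ℕ) atTop) (ht : GeOrd 𝒰 s t 1) {k : ℕ}
    (hk : 1 ≤ k) : GeOrd 𝒰 s (t ^ k) 1 := by
  refine GeOrd.mono hs (GeOrd.pow hs ht k) ?_
  rw [mul_one]
  exact_mod_cast hk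

theorem Phi_ge (hs : Tendsto s (𝒰 : Filter ℕ) atTop) (ht : GeOrd 𝒰 s t 1)
    (hy : ∀ i, GeOrd 𝒰 s (y i) 0) (P : MvPolynomial (Fin N) L) :
    GeOrd 𝒰 s (Phi e t y P) 0 :=
  GeOrd.sum hs _ _ fun _ _ => GeOrd.mul_left (pow_ge hs ht _) (aeval_ge hs hy _)

theorem Phi_lip (hs : Tendsto s (𝒰 : Filter ℕ) atTop) (ht : GeOrd 𝒰 s t 1)
    (hy : ∀ i, GeOrd 𝒰 s (y i) 0) (hu : ∀ i, GeOrd 𝒰 s (u i) 0)
    (h : ∀ i, GeOrd 𝒰 s (y i - u i) α) (P : MvPolynomial (Fin N) L) :
    GeOrd 𝒰 s (Phi e t y P - Phi e t u P) α := by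
  rw [Phi, Phi, ← Finset.sum_sub_distrib]
  refine GeOrd.sum hs _ _ fun k _ => ?_
  rw [← mul_sub]
  exact GeOrd.mul_left (pow_ge hs ht _) (aeval_lip hs hy hu h _)

theorem Phi_zero (hs : Tendsto s (𝒰 : Filter ℕ) atTop) (ht : GeOrd 𝒰 s t 1)
    (hu : ∀ i, GeOrd 𝒰 s (u i) 0) (P : MvPolynomial (Fin N) L) :
    GeOrd 𝒰 s (Phi e t u P - aeval u (homogeneousComponent e P)) 1 := by
  rw [Phi, Finset.sum_range_succ, Nat.sub_self, pow_zero, one_mul, add_sub_cancel_right]
  refine GeOrd.sum hs _ _ fun k hk => ?_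
  rw [Finset.mem_range] at hk
  exact GeOrd.mul_right (pow_ge_one hs ht (by omega)) (aeval_ge hs hu _)

theorem aeval_const (q : Fin N → L) (P : MvPolynomial (Fin N) L) :
    aeval (fun i => algebraMap L (ℕ → Ω) (q i)) P = algebraMap L (ℕ → Ω) (eval q P) := by
  have := MvPolynomial.aeval_algebraMap_apply (ℕ → Ω) q P
  rw [← MvPolynomial.coe_aeval_eq_eval]
  exact this

theorem Phi_lin (hs : Tendsto s (𝒰 : Filter ℕ) atTop) (ht : GeOrd 𝒰 s t 1)
    (hy : ∀ i, GeOrd 𝒰 s (y i) 0) (hu : ∀ i, GeOrd 𝒰 s (u i) 0)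
    (h : ∀ i, GeOrd 𝒰 s (y i - u i) α) {q : Fin N → L}
    (hq : ∀ i, GeOrd 𝒰 s (u i - algebraMap L (ℕ → Ω) (q i)) β)
    (hδ1 : δ ≤ 1 + α) (hδ2 : δ ≤ α + α) (hδ3 : δ ≤ β + α) (P : MvPolynomial (Fin N) L) :
    GeOrd 𝒰 s (Phi e t y P - Phi e t u P -
      ∑ l, eval q (pderiv l (homogeneousComponent e P)) • (y l - u l)) δ := by
  have h1 : Phi e t y P - Phi e t u P -
        ∑ l, eval q (pderiv l (homogeneousComponent e P)) • (y l - u l) =
      ∑ k ∈ Finset.range e, t ^ (e - k) * (aeval y (homogeneousComponent k P) -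
        aeval u (homogeneousComponent k P)) +
      ((aeval y (homogeneousComponent e P) - aeval u (homogeneousComponent e P) -
        ∑ l, aeval u (pderiv l (homogeneousComponent e P)) * (y l - u l)) +
      ∑ l, (aeval u (pderiv l (homogeneousComponent e P)) -
        algebraMap L (ℕ → Ω) (eval q (pderiv l (homogeneousComponent e P)))) * (y l - u l)) := by
    rw [Phi, Phi, Finset.sum_range_succ, Finset.sum_range_succ, Nat.sub_self, pow_zero, one_mul,
      one_mul]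
    simp only [sub_mul (aeval u _), mul_sub (t ^ _), Finset.sum_sub_distrib, Algebra.smul_def]
    ring
  rw [h1]
  refine GeOrd.add hs (GeOrd.sum hs _ _ fun k hk => ?_) (GeOrd.add hs ?_
    (GeOrd.sum hs _ _ fun l _ => ?_))
  · rw [Finset.mem_range] at hk
    exact GeOrd.mono hs (GeOrd.mul (pow_ge_one hs ht (by omega)) (aeval_lip hs hy hu h _)) hδ1
  · exact GeOrd.mono hs (aeval_taylor hs hy hu h _) hδ2
  · refine GeOrd.mono hs (GeOrd.mul ?_ (h l)) hδ3
    rw [← aeval_const]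
    exact aeval_lip hs hu (fun i => GeOrd.algMap hs (q i)) hq _

end Pool.Agent.Helper13.RP
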