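import Pool.Agent.Helper13.RP.Ord

/-!
# Polynomials in sequences: Lipschitz and Taylor estimates
-/

set_option autoImplicit false

namespace Pool.Agent.Helper13.RP

open MvPolynomial Filter Topology Pool.Agent.Helper65.RP

variable {L Ω : Type} [Field L] [NormedField Ω] [Algebra L Ω] {N : ℕ}
  {𝒰 : Ultrafilter ℕ} {s : ℕ → ℝ} {α β δ : ℝ} {x u : Fin N → ℕ → Ω}

theorem aeval_ge (hs : Tendsto s (𝒰 : Filter ℕ) atTop) (hx : ∀ i, GeOrd 𝒰 s (x i) 0)
    (P : MvPolynomial (Fin N) L) : GeOrd 𝒰 s (aeval x P) 0 := by
  induction P using MvPolynomial.induction_on with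
  | C a => rw [aeval_C]; exact GeOrd.algMap hs a
  | add p q hp hq => rw [map_add]; exact GeOrd.add hs hp hq
  | mul_X p i hp => rw [map_mul, aeval_X]; exact GeOrd.mul_left hp (hx i)

theorem aeval_lip (hs : Tendsto s (𝒰 : Filter ℕ) atTop) (hx : ∀ i, GeOrd 𝒰 s (x i) 0)
    (hu : ∀ i, GeOrd 𝒰 s (u i) 0) (h : ∀ i, GeOrd 𝒰 s (x i - u i) α)
    (P : MvPolynomial (Fin N) L) : GeOrd 𝒰 s (aeval x P - aeval u P) α := by
  induction P using MvPolynomial.induction_on with
  | C a => rw [aeval_C, aeval_C, sub_self]; exact GeOrd.zero
  | add p q hp hq =>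
      rw [map_add, map_add, add_sub_add_comm]; exact GeOrd.add hs hp hq
  | mul_X p i hp =>
      rw [map_mul, aeval_X, map_mul, aeval_X]
      have : aeval x p * x i - aeval u p * u i
          = (aeval x p - aeval u p) * u i + aeval x p * (x i - u i) := by ring
      rw [this]
      exact GeOrd.add hs (GeOrd.mul_right hp (hu i)) (GeOrd.mul_left (aeval_ge hs hx p) (h i))

theorem aeval_taylor (hs : Tendsto s (𝒰 : Filter ℕ) atTop) (hx : ∀ i, GeOrd 𝒰 s (x i) 0)
    (hu : ∀ i, GeOrd 𝒰 s (u i) 0) (h : ∀ i, GeOrd 𝒰 s (x i - u i) α)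
    (P : MvPolynomial (Fin N) L) :
    GeOrd 𝒰 s (aeval x P - aeval u P - ∑ l, aeval u (pderiv l P) * (x l - u l)) (α + α) := by
  induction P using MvPolynomial.induction_on with
  | C a =>
      have : aeval x (C a : MvPolynomial (Fin N) L) - aeval u (C a : MvPolynomial (Fin N) L) -
        ∑ l, aeval u (pderiv l (C a : MvPolynomial (Fin N) L)) * (x l - u l) = 0 := by
        simp
      rw [this]
      exact GeOrd.zero
  | add p q hp hq =>
      have : aeval x (p + q) - aeval u (p + q) - ∑ l, aeval u (pderiv l (p + q)) * (x l - u l)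
        = (aeval x p - aeval u p - ∑ l, aeval u (pderiv l p) * (x l - u l)) +
          (aeval x q - aeval u q - ∑ l, aeval u (pderiv l q) * (x l - u l)) := by
        simp only [map_add, add_mul, Finset.sum_add_distrib]
        ring
      rw [this]
      exact GeOrd.add hs hp hq
  | mul_X p i hp =>
      have : aeval x (p * X i) - aeval u (p * X i) -
          ∑ l, aeval u (pderiv l (p * X i)) * (x l - u l)
        = u i * (aeval x p - aeval u p - ∑ l, aeval u (pderiv l p) * (x l - u l)) +
          (aeval x p - aeval u p) * (x i - u i) := by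
        have h1 : ∑ l, aeval u (pderiv l (p * X i)) * (x l - u l)
            = u i * (∑ l, aeval u (pderiv l p) * (x l - u l)) + aeval u p * (x i - u i) := by
          have h2 : ∀ l, aeval u (pderiv l (p * X i)) * (x l - u l)
              = u i * (aeval u (pderiv l p) * (x l - u l)) +
                (if l = i then aeval u p * (x l - u l) else 0) := by
            intro l
            rw [Derivation.leibniz, pderiv_X]
            by_cases hl : l = i
            · subst hl
              simp
              ring
            · rw [Pi.single_eq_of_ne (Ne.symm hl), if_neg hl]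
              simp
              ring
          rw [Finset.sum_congr rfl fun l _ => h2 l, Finset.sum_add_distrib, ← Finset.mul_sum]
          simp
        rw [h1]
        simp only [map_mul, aeval_X]
        ring
      rw [this]
      exact GeOrd.add hs (GeOrd.mul_left (hu i) hp) (GeOrd.mul (aeval_lip hs hx hu h p) (h i))

end Pool.Agent.Helper13.RP
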