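import Pool.Agent.Helper13.RP.Phi

/-!
# Inverting the linear part
-/

set_option autoImplicit false

namespace Pool.Agent.Helper13.RP

open MvPolynomial Filter Topology Pool.Agent.Helper65.RP

variable {L Ω : Type} [Field L] [NormedField Ω] [Algebra L Ω] {N : ℕ}
  {𝒰 : Ultrafilter ℕ} {s : ℕ → ℝ} {δ : ℝ}

theorem inv_q {J : Matrix (Fin N) (Fin N) L} (hJ : J.det ≠ 0) {q : Fin N → L} {i₀ : Fin N}
    (hq0 : q i₀ = 1) {κ : L} (hJq : ∀ i, ∑ l, J i l * q l = κ * q i) :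
    ∃ θ : L, ∀ i, ∑ l, J⁻¹ i l * q l = θ * q i := by
  have h1 : J.mulVec q = κ • q := by
    ext i
    exact hJq i
  have h2 : J⁻¹ * J = 1 := Matrix.nonsing_inv_mul J (isUnit_iff_ne_zero.mpr hJ)
  have h3 : q = κ • J⁻¹.mulVec q := by
    rw [← Matrix.mulVec_smul, ← h1, Matrix.mulVec_mulVec, h2, Matrix.one_mulVec]
  have hκ : κ ≠ 0 := by
    rintro rfl
    rw [zero_smul] at h3
    rw [h3] at hq0
    exact zero_ne_one hq0
  refine ⟨κ⁻¹, fun i => ?_⟩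
  have h4 := congrFun h3 i
  rw [Pi.smul_apply, smul_eq_mul] at h4
  have h5 : J⁻¹.mulVec q i = ∑ l, J⁻¹ i l * q l := rfl
  rw [← h5, h4]
  field_simp

theorem inv_v {A : Type} [AddCommGroup A] [Module L A] {J : Matrix (Fin N) (Fin N) L}
    (hJ : J.det ≠ 0) (v : Fin N → A) (i : Fin N) :
    ∑ l, J⁻¹ i l • ∑ k, J l k • v k = v i := by
  have h2 : J⁻¹ * J = 1 := Matrix.nonsing_inv_mul J (isUnit_iff_ne_zero.mpr hJ)
  simp_rw [Finset.smul_sum, smul_smul]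
  rw [Finset.sum_comm]
  simp_rw [← Finset.sum_smul]
  have h3 : ∀ k, ∑ l, J⁻¹ i l * J l k = if i = k then 1 else 0 := by
    intro k
    rw [← Matrix.mul_apply, h2, Matrix.one_apply]
  simp_rw [h3]
  simp

theorem solve_eq {A : Type} [AddCommGroup A] [Module L A] {J : Matrix (Fin N) (Fin N) L}
    (hJ : J.det ≠ 0) {q : Fin N → L} {i₀ : Fin N} (hq0 : q i₀ = 1) {κ : L}
    (hJq : ∀ i, ∑ l, J i l * q l = κ * q i) (v w : Fin N → A) (i : Fin N) :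
    v i - (∑ l, J⁻¹ i l • w l - q i • ∑ l, J⁻¹ i₀ l • w l) = q i • v i₀ +
      (∑ l, J⁻¹ i l • (∑ k, J l k • v k - q l • (∑ k, J i₀ k • v k) - w l) -
        q i • ∑ l, J⁻¹ i₀ l • (∑ k, J l k • v k - q l • (∑ k, J i₀ k • v k) - w l)) := by
  obtain ⟨θ, hθ⟩ := inv_q hJ hq0 hJq
  have h1 : ∀ j, ∑ l, J⁻¹ j l • (∑ k, J l k • v k - q l • (∑ k, J i₀ k • v k) - w l) =
      v j - (θ * q j) • (∑ k, J i₀ k • v k) - ∑ l, J⁻¹ j l • w l := by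
    intro j
    simp_rw [smul_sub, Finset.sum_sub_distrib]
    rw [inv_v hJ, ← hθ j]
    simp_rw [smul_smul]
    rw [← Finset.sum_smul]
  rw [h1, h1, hq0]
  simp only [smul_sub, smul_smul, mul_one]
  rw [mul_comm (q i) θ]
  abel

theorem solve (hs : Tendsto s (𝒰 : Filter ℕ) atTop) {J : Matrix (Fin N) (Fin N) L}
    (hJ : J.det ≠ 0) {q : Fin N → L} {i₀ : Fin N} (hq0 : q i₀ = 1) {κ : L}
    (hJq : ∀ i, ∑ l, J i l * q l = κ * q i) {v w : Fin N → ℕ → Ω}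
    (hv : GeOrd 𝒰 s (v i₀) δ)
    (h : ∀ i, GeOrd 𝒰 s (∑ l, J i l • v l - q i • (∑ l, J i₀ l • v l) - w i) δ) (i : Fin N) :
    GeOrd 𝒰 s (v i - (∑ l, J⁻¹ i l • w l - q i • ∑ l, J⁻¹ i₀ l • w l)) δ := by
  rw [solve_eq hJ hq0 hJq v w i]
  refine GeOrd.add hs (GeOrd.smul hs _ hv) (GeOrd.sub hs ?_ (GeOrd.smul hs _ ?_))
  · exact GeOrd.sum hs _ _ fun l _ => GeOrd.smul hs _ (h l)
  · exact GeOrd.sum hs _ _ fun l _ => GeOrd.smul hs _ (h l)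

end Pool.Agent.Helper13.RP
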