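import Pool.Agent.Helper13.RP.Solve

/-!
# One step of the iteration
-/

set_option autoImplicit false

namespace Pool.Agent.Helper13.RP

open MvPolynomial Filter Topology Pool.Agent.Helper65.RP

variable {L Ω : Type} [Field L] [NormedField Ω] [Algebra L Ω] {N : ℕ}
  {𝒰 : Ultrafilter ℕ} {s : ℕ → ℝ} {α β δ : ℝ} {e : ℕ}

/-- The Jacobian at `q` of the leading forms. -/
noncomputable def jac (e : ℕ) (F : Fin N → MvPolynomial (Fin N) L) (q : Fin N → L) :
    Matrix (Fin N) (Fin N) L :=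
  Matrix.of fun i l => eval q (pderiv l (homogeneousComponent e (F i)))

/-- The passage from one level to the next one. -/
structure Trans (𝒰 : Ultrafilter ℕ) (e : ℕ) (F : Fin N → MvPolynomial (Fin N) L) (i₀ : Fin N)
    (t t' : ℕ → Ω) (y y' : Fin N → ℕ → Ω) : Prop where
  top : ∀ᶠ n in (𝒰 : Filter ℕ), y i₀ n = 1
  eq : ∀ i, ∀ᶠ n in (𝒰 : Filter ℕ), Phi e t y (F i) n = Phi e t y (F i₀) n * y' i n
  inv : ∀ᶠ n in (𝒰 : Filter ℕ), t' n * Phi e t y (F i₀) n = t n ^ e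

theorem trans_of {F : Fin N → MvPolynomial (Fin N) L} (hF : ∀ i, (F i).totalDegree ≤ e)
    {i₀ : Fin N} {x x' : ℕ → Fin N → Ω}
    (hx : ∀ᶠ n in (𝒰 : Filter ℕ), ∀ i, x' n i = aeval (x n) (F i))
    (h0 : ∀ᶠ n in (𝒰 : Filter ℕ), x n i₀ ≠ 0) (h0' : ∀ᶠ n in (𝒰 : Filter ℕ), x' n i₀ ≠ 0) :
    Trans 𝒰 e F i₀ (fun n => (x n i₀)⁻¹) (fun n => (x' n i₀)⁻¹) (fun i n => x n i / x n i₀)
      (fun i n => x' n i / x' n i₀) := by
  have key : ∀ᶠ n in (𝒰 : Filter ℕ), ∀ i, x' n i = (x n i₀) ^ e *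
      Phi e (fun n => (x n i₀)⁻¹) (fun i n => x n i / x n i₀) (F i) n := by
    filter_upwards [hx, h0] with n h1 h2 i
    rw [h1 i, Phi_apply, ← sum_scale (hF i) h2]
    congr 1
    congr 1
    funext j
    field_simp
  refine ⟨?_, ?_, ?_⟩
  · filter_upwards [h0] with n h1
    exact div_self h1
  · intro i
    filter_upwards [key, h0, h0'] with n h1 h2 h3
    have h4 := h1 i
    have h5 := h1 i₀
    set A := Phi e (fun n => (x n i₀)⁻¹) (fun i n => x n i / x n i₀) (F i) n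
    set B := Phi e (fun n => (x n i₀)⁻¹) (fun i n => x n i / x n i₀) (F i₀) n
    have h6 : (x n i₀) ^ e ≠ 0 := pow_ne_zero _ h2
    have h7 : B ≠ 0 := by
      intro h8
      rw [h8, mul_zero] at h5
      exact h3 h5
    show A = B * (x' n i / x' n i₀)
    rw [h4, h5]
    field_simp
  · filter_upwards [key, h0, h0'] with n h1 h2 h3
    have h5 := h1 i₀
    set B := Phi e (fun n => (x n i₀)⁻¹) (fun i n => x n i / x n i₀) (F i₀) n
    have h6 : (x n i₀) ^ e ≠ 0 := pow_ne_zero _ h2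
    have h7 : B ≠ 0 := by
      intro h8
      rw [h8, mul_zero] at h5
      exact h3 h5
    show (x' n i₀)⁻¹ * B = ((x n i₀)⁻¹) ^ e
    rw [h5, inv_pow]
    field_simp

section base
variable {F : Fin N → MvPolynomial (Fin N) L} {q : Fin N → L} {i₀ : Fin N} {c : L}
  {t t' : ℕ → Ω} {y y' : Fin N → ℕ → Ω}

theorem jac_q (hfix : ∀ i, eval q (homogeneousComponent e (F i)) = c * q i) (i : Fin N) :
    ∑ l, jac e F q i l * q l = (e * c) * q i := by
  have h1 := (homogeneousComponent_isHomogeneous e (F i)).sum_X_mul_pderiv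
  have h2 := congrArg (eval q) h1
  rw [map_sum, map_nsmul, hfix] at h2
  have h3 : ∑ l, jac e F q i l * q l
      = ∑ l, eval q (X l * pderiv l (homogeneousComponent e (F i))) := by
    refine Finset.sum_congr rfl fun l _ => ?_
    rw [map_mul, eval_X, mul_comm]
    rfl
  rw [h3, h2, nsmul_eq_mul, mul_assoc]

theorem bdd_of (hs : Tendsto s (𝒰 : Filter ℕ) atTop) (hδ : 0 ≤ δ)
    (h : ∀ i, GeOrd 𝒰 s (y i - algebraMap L (ℕ → Ω) (q i)) δ) (i : Fin N) :
    GeOrd 𝒰 s (y i) 0 := by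
  have := GeOrd.add hs (GeOrd.mono hs (h i) hδ) (GeOrd.algMap (L := L) (Ω := Ω) hs (q i))
  rwa [sub_add_cancel] at this

theorem base_step (hs : Tendsto s (𝒰 : Filter ℕ) atTop) (ht : GeOrd 𝒰 s t 1)
    (htr : Trans 𝒰 e F i₀ t t' y y') (hq0 : q i₀ = 1)
    (hfix : ∀ i, eval q (homogeneousComponent e (F i)) = c * q i)
    (hdet : (jac e F q).det ≠ 0) (hδ : 0 ≤ δ)
    (hy : ∀ i, GeOrd 𝒰 s (y i - algebraMap L (ℕ → Ω) (q i)) δ)
    (hy' : ∀ i, GeOrd 𝒰 s (y' i - algebraMap L (ℕ → Ω) (q i)) α) {ε : ℝ} (h1 : ε ≤ 1)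
    (h2 : ε ≤ δ + δ) (h3 : ε ≤ α) (i : Fin N) :
    GeOrd 𝒰 s (y i - algebraMap L (ℕ → Ω) (q i)) ε := by
  have hq' : ∀ i, GeOrd 𝒰 s (algebraMap L (ℕ → Ω) (q i)) 0 := fun i => GeOrd.algMap hs (q i)
  have hyb : ∀ i, GeOrd 𝒰 s (y i) 0 := bdd_of hs hδ hy
  have hlin : ∀ i, GeOrd 𝒰 s (Phi e t y (F i) - Phi e t (fun i => algebraMap L (ℕ → Ω) (q i)) (F i)
      - ∑ l, jac e F q i l • (y l - algebraMap L (ℕ → Ω) (q l))) ε := fun i =>
    Phi_lin (β := 1) hs ht hyb hq' hy (fun i => by rw [sub_self]; exact GeOrd.zero)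
      (by linarith) h2 (by linarith) (F i)
  have hz : ∀ i, GeOrd 𝒰 s (Phi e t (fun i => algebraMap L (ℕ → Ω) (q i)) (F i)
      - algebraMap L (ℕ → Ω) (c * q i)) ε := by
    intro i
    have := GeOrd.mono hs (Phi_zero (e := e) hs ht hq' (F i)) h1
    rwa [aeval_const, hfix] at this
  have hmain : ∀ i, GeOrd 𝒰 s (∑ l, jac e F q i l • (y l - algebraMap L (ℕ → Ω) (q l)) -
      q i • (∑ l, jac e F q i₀ l • (y l - algebraMap L (ℕ → Ω) (q l))) - 0) ε := by
    intro i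
    have h4 : GeOrd 𝒰 s (Phi e t y (F i₀) * (y' i - algebraMap L (ℕ → Ω) (q i))) ε :=
      GeOrd.mono hs (GeOrd.mul_left (Phi_ge hs ht hyb (F i₀)) (hy' i)) h3
    have h5 : GeOrd 𝒰 s (Phi e t y (F i) - q i • Phi e t y (F i₀)) ε := by
      refine GeOrd.congr h4 ?_
      filter_upwards [htr.eq i] with n h6
      rw [Pi.sub_apply, h6, Pi.mul_apply, Pi.sub_apply, Pi.smul_apply, Algebra.smul_def,
        Pi.algebraMap_apply]
      ring
    have h6 := GeOrd.add hs h5 (GeOrd.sub hs (GeOrd.smul hs (q i) (hlin i₀)) (hlin i))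
    have h7 := GeOrd.add hs h6 (GeOrd.sub hs (GeOrd.smul hs (q i) (hz i₀)) (hz i))
    refine GeOrd.congr h7 (Eventually.of_forall fun n => congrFun ?_ n)
    rw [hq0]
    simp only [Algebra.smul_def, map_mul, map_one]
    ring
  have hv : GeOrd 𝒰 s (y i₀ - algebraMap L (ℕ → Ω) (q i₀)) ε := by
    refine GeOrd.of_zero ?_
    filter_upwards [htr.top] with n h4
    rw [Pi.sub_apply, h4, hq0, map_one, Pi.one_apply, sub_self]
  have := solve (w := fun _ => 0) hs hdet hq0 (jac_q hfix) hv hmain i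
  simpa using this

theorem base (hs : Tendsto s (𝒰 : Filter ℕ) atTop) (ht : GeOrd 𝒰 s t 1)
    (htr : Trans 𝒰 e F i₀ t t' y y') (hq0 : q i₀ = 1)
    (hfix : ∀ i, eval q (homogeneousComponent e (F i)) = c * q i)
    (hdet : (jac e F q).det ≠ 0) (hα : 0 < α) {κ : ℝ} (hκ : 0 < κ)
    (hy : ∀ i, GeOrd 𝒰 s (y i - algebraMap L (ℕ → Ω) (q i)) κ)
    (hy' : ∀ i, GeOrd 𝒰 s (y' i - algebraMap L (ℕ → Ω) (q i)) α) (i : Fin N) :
    GeOrd 𝒰 s (y i - algebraMap L (ℕ → Ω) (q i)) (min 1 α) := by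
  have key : ∀ j : ℕ, ∀ i, GeOrd 𝒰 s (y i - algebraMap L (ℕ → Ω) (q i))
      (min (min 1 α) (2 ^ j * κ)) := by
    intro j
    induction j with
    | zero =>
        intro i
        refine GeOrd.mono hs (hy i) ?_
        rw [pow_zero, one_mul]
        exact min_le_right _ _
    | succ j ih =>
        intro i
        have h0 : 0 < min 1 α := lt_min one_pos hα
        have h1 : 0 < 2 ^ j * κ := by positivity
        refine base_step hs ht htr hq0 hfix hdet (le_min h0.le h1.le) ih hy' ?_ ?_ ?_ i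
        · exact (min_le_left _ _).trans (min_le_left _ _)
        · rw [← two_mul, mul_min_of_nonneg _ _ (by norm_num : (0 : ℝ) ≤ 2)]
          refine le_min ((min_le_left _ _).trans ?_) ((min_le_right _ _).trans (le_of_eq ?_))
          · linarith
          · rw [pow_succ]
            ring
        · exact (min_le_left _ _).trans (min_le_right _ _)
  obtain ⟨j, hj⟩ := pow_unbounded_of_one_lt (1 / κ) (by norm_num : (1 : ℝ) < 2)
  refine GeOrd.mono hs (key j i) (le_min (le_refl _) ((min_le_left _ _).trans ?_))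
  rw [div_lt_iff₀ hκ] at hj
  exact hj.le

end base

end Pool.Agent.Helper13.RP
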